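import Pool.Agent.W852.FG.Stms

/-!
# Project FG (MP_ac6ae5_pr, helper852): task FG-CHAIN
-/

namespace Pool.Agent.W782.FG

open FrogGW MeasureTheory ProbabilityTheory
open scoped ENNReal NNReal Classical

section resample

variable {ι R : Type} [MeasurableSpace R] (ν : Measure R) [IsProbabilityMeasure ν]

lemma map_resample (x : ι) :
    ((Measure.infinitePi fun _ : ι => ν).prod ν).map (fun p => Function.update p.1 x p.2) =
      Measure.infinitePi fun _ : ι => ν := by
  apply Measure.eq_infinitePi
  intro s t ht
  have hm : Measurable fun p : (ι → R) × R => Function.update p.1 x p.2 := measurable_update'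
  rw [Measure.map_apply hm (.pi s.countable_toSet fun _ _ => ht _)]
  have h1 : ((fun p : (ι → R) × R => Function.update p.1 x p.2) ⁻¹' (Set.pi s t)) =
      (Set.pi (s.erase x) t) ×ˢ (if x ∈ s then t x else Set.univ) := by
    ext p
    constructor
    · intro h
      constructor
      · intro i hi
        have hi' : i ≠ x ∧ i ∈ s := Finset.mem_erase.mp (by exact hi)
        have := h i hi'.2
        simpa [Function.update_of_ne hi'.1] using this
      · split_ifs with h2
        · have := h x h2
          simpa using this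
        · trivial
    · rintro ⟨h2, h3⟩ i hi
      by_cases hix : i = x
      · subst hix
        have hi' : i ∈ s := hi
        rw [if_pos hi'] at h3
        simpa using h3
      · have := h2 i (by exact Finset.mem_erase.mpr ⟨hix, hi⟩)
        simpa [Function.update_of_ne hix] using this
  rw [h1, Measure.prod_prod, Measure.infinitePi_pi _ (fun k _ => ht _)]
  by_cases h2 : x ∈ s
  · rw [if_pos h2, mul_comm, Finset.mul_prod_erase s (fun i => ν (t i)) h2]
  · rw [if_neg h2, measure_univ, mul_one, Finset.erase_eq_of_notMem h2]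

lemma lintegral_indep (x : ι) (a : R → ℝ≥0∞) (b : (ι → R) → ℝ≥0∞) (ha : Measurable a)
    (hb : Measurable b) (hab : ∀ ω r, b (Function.update ω x r) = b ω) :
    ∫⁻ ω, a (ω x) * b ω ∂(Measure.infinitePi fun _ : ι => ν) =
      (∫⁻ r, a r ∂ν) * ∫⁻ ω, b ω ∂(Measure.infinitePi fun _ : ι => ν) := by
  have hm : Measurable fun p : (ι → R) × R => Function.update p.1 x p.2 := measurable_update'
  conv_lhs => rw [← map_resample ν x]
  have hab' : Measurable fun ω : ι → R => a (ω x) * b ω :=
    (ha.comp (measurable_pi_apply x)).mul hb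
  rw [lintegral_map hab' hm]
  simp only [Function.update_self, hab]
  have h1 : ∫⁻ p : (ι → R) × R, a p.2 * b p.1 ∂((Measure.infinitePi fun _ : ι => ν).prod ν) =
      ∫⁻ p : (ι → R) × R, b p.1 * a p.2 ∂((Measure.infinitePi fun _ : ι => ν).prod ν) :=
    lintegral_congr fun p => mul_comm _ _
  rw [h1, lintegral_prod_mul hb.aemeasurable ha.aemeasurable, mul_comm]

end resample

section chain

set_option linter.unusedSectionVars false

variable {ι R : Type} [MeasurableSpace R] (E : ι → ι → R → Prop)

/-- sum of `f` over the self-avoiding chains from `x` in `S'`, of length at most `m` -/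
noncomputable def D (f : ι → R → ℝ≥0∞) : ℕ → Finset ι → ι → (ι → R) → ℝ≥0∞
  | 0, _, x, w => f x (w x)
  | m + 1, S', x, w => f x (w x) +
      ∑ y ∈ S', (if E x y (w x) then D f m (S'.erase y) y w else 0)

variable {E}

lemma D_meas (hE : ∀ x y, MeasurableSet {r | E x y r}) (f : ι → R → ℝ≥0∞)
    (hf : ∀ x, Measurable (f x)) : ∀ (m : ℕ) (S' : Finset ι) (x : ι),
    Measurable (D E f m S' x) := by
  intro m
  induction m with
  | zero => intro S' x; exact (hf x).comp (measurable_pi_apply x)
  | succ m ih =>
    intro S' x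
    refine ((hf x).comp (measurable_pi_apply x)).add ?_
    refine Finset.measurable_sum _ fun y _ => ?_
    exact Measurable.ite ((measurable_pi_apply x) (hE x y)) (ih _ _) measurable_const

/-- `D` depends only on the coordinates `x` and `S'` -/
lemma D_update (f : ι → R → ℝ≥0∞) : ∀ (m : ℕ) (S' : Finset ι) (x z : ι) (w : ι → R) (r : R),
    z ≠ x → z ∉ S' → D E f m S' x (Function.update w z r) = D E f m S' x w := by
  intro m
  induction m with
  | zero =>
    intro S' x z w r hz _
    simp only [D, Function.update_of_ne hz.symm]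
  | succ m ih =>
    intro S' x z w r hz hS
    simp only [D, Function.update_of_ne hz.symm]
    congr 1
    refine Finset.sum_congr rfl fun y hy => ?_
    have hzy : z ≠ y := fun h => hS (h ▸ hy)
    rw [ih (S'.erase y) y z w r hzy fun h => hS (Finset.mem_of_mem_erase h)]

lemma D_exp (ν : Measure R) [IsProbabilityMeasure ν] (hE : ∀ x y, MeasurableSet {r | E x y r})
    (q : ι → R → ℝ≥0∞) (hq : ∀ x, Measurable (q x)) (U : ι → ℝ≥0∞) (S : Finset ι)
    (hU : ∀ x ∈ S, ∫⁻ r, q x r ∂ν + ∑ y ∈ S, ν {r | E x y r} * U y ≤ U x) :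
    ∀ (m : ℕ) (S' : Finset ι) (x : ι), x ∈ S → x ∉ S' → S' ⊆ S →
      ∫⁻ w, D E q m S' x w ∂(Measure.infinitePi fun _ : ι => ν) ≤ U x := by
  intro m
  induction m with
  | zero =>
    intro S' x hx _ _
    have h1 : ∫⁻ w, D E q 0 S' x w ∂(Measure.infinitePi fun _ : ι => ν) = ∫⁻ r, q x r ∂ν :=
      (measurePreserving_eval_infinitePi (fun _ : ι => ν) x).lintegral_comp (hq x)
    rw [h1]
    exact le_trans le_self_add (hU x hx)
  | succ m ih =>
    intro S' x hx hxS' hS'
    refine le_trans ?_ (hU x hx)
    have h0 : ∀ w, D E q (m + 1) S' x w = q x (w x) +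
      ∑ y ∈ S', (if E x y (w x) then D E q m (S'.erase y) y w else 0) := fun w => rfl
    simp only [h0]
    have hqx : Measurable fun w : ι → R => q x (w x) := (hq x).comp (measurable_pi_apply x)
    rw [lintegral_add_left hqx]
    have h1 : ∫⁻ w : ι → R, q x (w x) ∂(Measure.infinitePi fun _ : ι => ν) = ∫⁻ r, q x r ∂ν :=
      (measurePreserving_eval_infinitePi (fun _ : ι => ν) x).lintegral_comp (hq x)
    rw [h1]
    gcongr
    have hm : ∀ y ∈ S', Measurable fun w : ι → R =>
        (if E x y (w x) then D E q m (S'.erase y) y w else 0) := fun y _ =>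
      Measurable.ite ((measurable_pi_apply x) (hE x y)) (D_meas hE q hq _ _ _) measurable_const
    rw [lintegral_finsetSum _ hm]
    calc ∑ y ∈ S', ∫⁻ w : ι → R, (if E x y (w x) then D E q m (S'.erase y) y w else 0)
          ∂(Measure.infinitePi fun _ : ι => ν)
        ≤ ∑ y ∈ S', ν {r | E x y r} * U y := by
          refine Finset.sum_le_sum fun y hy => ?_
          have h2 : ∀ w : ι → R, (if E x y (w x) then D E q m (S'.erase y) y w else 0) =
              ({r | E x y r}.indicator 1 (w x) : ℝ≥0∞) * D E q m (S'.erase y) y w := by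
            intro w
            by_cases h : E x y (w x)
            · rw [if_pos h, Set.indicator_of_mem (by exact h)]
              simp
            · rw [if_neg h, Set.indicator_of_notMem (by exact h)]
              simp
          simp only [h2]
          have hxy : x ≠ y := fun h => hxS' (h ▸ hy)
          rw [lintegral_indep ν x _ _ (measurable_one.indicator (hE x y)) (D_meas hE q hq _ _ _)
            (fun w r => D_update q m _ y x w r hxy fun h => hxS' (Finset.mem_of_mem_erase h)),
            lintegral_indicator_one (hE x y)]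
          gcongr
          exact ih _ y (hS' hy) (Finset.notMem_erase y S') ((Finset.erase_subset _ _).trans hS')
      _ ≤ ∑ y ∈ S, ν {r | E x y r} * U y := Finset.sum_le_sum_of_subset hS'

/-- the part of `q` at `z` -/
noncomputable def dz (q : ι → R → ℝ≥0∞) (z : ι) : ι → R → ℝ≥0∞ :=
  fun x r => if x = z then q x r else 0

lemma D_sum (q : ι → R → ℝ≥0∞) (S : Finset ι) : ∀ (m : ℕ) (S' : Finset ι) (x : ι) (w : ι → R),
    ∑ z ∈ S, D E (dz q z) m S' x w ≤ D E q m S' x w := by
  have h0 : ∀ (x : ι) (r : R), ∑ z ∈ S, dz q z x r ≤ q x r := by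
    intro x r
    simp only [dz, Finset.sum_ite_eq]
    split_ifs
    · exact le_rfl
    · exact zero_le
  intro m
  induction m with
  | zero => intro S' x w; exact h0 x (w x)
  | succ m ih =>
    intro S' x w
    have h1 : ∀ (f : ι → R → ℝ≥0∞), D E f (m + 1) S' x w = f x (w x) +
      ∑ y ∈ S', (if E x y (w x) then D E f m (S'.erase y) y w else 0) := fun f => rfl
    simp only [h1]
    rw [Finset.sum_add_distrib, Finset.sum_comm]
    gcongr with y hy
    · exact h0 x (w x)
    · split_ifs with h
      · exact ih _ _ _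
      · simp

/-- one step in `S'` -/
def rel (E : ι → ι → R → Prop) (w : ι → R) (S' : Finset ι) (x y : ι) : Prop :=
  y ∈ S' ∧ E x y (w x)

lemma rel_erase {w : ι → R} {S' : Finset ι} {x z : ι}
    (h : Relation.ReflTransGen (rel E w S') x z) :
    Relation.ReflTransGen (rel E w (S'.erase x)) x z := by
  induction h with
  | refl => exact Relation.ReflTransGen.refl
  | @tail y z' _ h2 ih =>
    by_cases hz : z' = x
    · subst hz; exact Relation.ReflTransGen.refl
    · exact ih.tail ⟨Finset.mem_erase.mpr ⟨hz, h2.1⟩, h2.2⟩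

lemma D_reach (q : ι → R → ℝ≥0∞) (w : ι → R) (z : ι) : ∀ (m : ℕ) (S' : Finset ι) (x : ι),
    S'.card ≤ m → Relation.ReflTransGen (rel E w S') x z →
      q z (w z) ≤ D E (dz q z) m S' x w := by
  intro m
  induction m with
  | zero =>
    intro S' x hm h
    rcases h.cases_head with h | ⟨y, h, _⟩
    · subst h
      simp [D, dz]
    · have : S' = ∅ := Finset.card_eq_zero.mp (Nat.le_zero.mp hm)
      rw [this] at h
      exact absurd h.1 (Finset.notMem_empty _)
  | succ m ih =>
    intro S' x hm h
    have h1 : D E (dz q z) (m + 1) S' x w = dz q z x (w x) +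
      ∑ y ∈ S', (if E x y (w x) then D E (dz q z) m (S'.erase y) y w else 0) := rfl
    rw [h1]
    rcases h.cases_head with h | ⟨y, h, h'⟩
    · subst h
      refine le_trans ?_ le_self_add
      simp [dz]
    · refine le_trans ?_ le_add_self
      have h2 := ih (S'.erase y) y (by rw [Finset.card_erase_of_mem h.1]; omega) (rel_erase h')
      refine le_trans ?_ (Finset.single_le_sum
        (f := fun y => (if E x y (w x) then D E (dz q z) m (S'.erase y) y w else 0))
        (fun _ _ => zero_le) h.1)
      rw [if_pos h.2]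
      exact h2

lemma reach_rel {B S : Finset ι} {w : ι → R} {z : ι} (h : Reach B S E w z) :
    ∃ b ∈ B, Relation.ReflTransGen (rel E w S) b z := by
  induction h with
  | start h => exact ⟨_, h, Relation.ReflTransGen.refl⟩
  | step _ hy hE ih =>
    obtain ⟨b, hb, h⟩ := ih
    exact ⟨b, hb, h.tail ⟨hy, hE⟩⟩

end chain

/-- FG-CHAIN -/
theorem chain : TaskChain := by
  intro ι R hdec _ ν _ B S hBS E hE q hq U hU
  clear hdec
  calc ∫⁻ ω, ∑ z ∈ S, (if Reach B S E ω z then q z (ω z) else 0)
      ∂(Measure.infinitePi fun _ : ι => ν)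
      ≤ ∫⁻ ω, ∑ b ∈ B, D E q S.card (S.erase b) b ω ∂(Measure.infinitePi fun _ : ι => ν) := by
        apply lintegral_mono
        intro w
        have h1 : ∀ z ∈ S, (if Reach B S E w z then q z (w z) else 0) ≤
            ∑ b ∈ B, D E (dz q z) S.card (S.erase b) b w := by
          intro z _
          split_ifs with h
          · obtain ⟨b, hb, h⟩ := reach_rel h
            refine le_trans ?_ (Finset.single_le_sum
              (f := fun b => D E (dz q z) S.card (S.erase b) b w) (fun _ _ => zero_le) hb)
            exact D_reach q w z _ _ _ (Finset.card_le_card (Finset.erase_subset _ _)) (rel_erase h)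
          · exact zero_le
        refine (Finset.sum_le_sum h1).trans ?_
        rw [Finset.sum_comm]
        exact Finset.sum_le_sum fun b _ => D_sum q S _ _ _ _
    _ = ∑ b ∈ B, ∫⁻ ω, D E q S.card (S.erase b) b ω ∂(Measure.infinitePi fun _ : ι => ν) :=
        lintegral_finsetSum _ fun b _ => D_meas hE q hq _ _ _
    _ ≤ ∑ x ∈ B, U x := Finset.sum_le_sum fun b hb =>
        D_exp ν hE q hq U S hU _ _ _ (hBS hb) (Finset.notMem_erase b S) (Finset.erase_subset _ _)

end Pool.Agent.W782.FG
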