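import Pool.Agent.W852.FG.Stms

/-!
# Project FG (MP_ac6ae5_pr, helper852): task FG-GF
-/

namespace Pool.Agent.W782.FG

open FrogGW MeasureTheory ProbabilityTheory
open scoped ENNReal NNReal Classical

lemma geom_id {z : ℝ≥0∞} (hz : z ≤ 1) (k : ℕ) :
    z ^ k + (1 - z) * ∑ i ∈ Finset.range k, z ^ i = 1 := by
  have hz' : (1 - z) + z = 1 := tsub_add_cancel_of_le hz
  induction k with
  | zero => simp
  | succ k ih =>
    rw [Finset.sum_range_succ, mul_add]
    calc z ^ (k + 1) + ((1 - z) * ∑ i ∈ Finset.range k, z ^ i + (1 - z) * z ^ k)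
        = ((1 - z) + z) * z ^ k + (1 - z) * ∑ i ∈ Finset.range k, z ^ i := by ring
      _ = 1 := by rw [hz', one_mul, ih]

lemma tsum_geom (p : Measure ℕ) [IsProbabilityMeasure p] {z : ℝ≥0∞} (hz : z < 1)
    (hfix : ∑' k, p {k} * z ^ k = z) : ∑' k, p {k} * ∑ i ∈ Finset.range k, z ^ i = 1 := by
  have hp1 : ∑' k, p {k} = 1 := by
    have := lintegral_countable' (μ := p) (fun _ => (1 : ℝ≥0∞))
    simpa using this.symm
  have h1 : ∑' k, p {k} * (z ^ k + (1 - z) * ∑ i ∈ Finset.range k, z ^ i) = 1 := by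
    simp only [geom_id hz.le, mul_one]
    exact hp1
  have h2 : ∑' k, p {k} * (z ^ k + (1 - z) * ∑ i ∈ Finset.range k, z ^ i) =
      z + (1 - z) * ∑' k, p {k} * ∑ i ∈ Finset.range k, z ^ i := by
    rw [← ENNReal.tsum_mul_left]
    conv_rhs => lhs; rw [← hfix]
    rw [← ENNReal.tsum_add]
    refine tsum_congr fun k => ?_
    ring
  rw [h2] at h1
  have h3 : z + (1 - z) = 1 := add_tsub_cancel_of_le hz.le
  have h4 : z + (1 - z) * ∑' k, p {k} * ∑ i ∈ Finset.range k, z ^ i = z + (1 - z) * 1 := by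
    rw [h1, mul_one, h3]
  have h5 := (ENNReal.add_right_inj (hz.trans ENNReal.one_lt_top).ne).mp h4
  refine (ENNReal.mul_right_inj ?_ ?_).mp h5
  · exact (tsub_pos_of_lt hz).ne'
  · exact (lt_of_le_of_lt tsub_le_self ENNReal.one_lt_top).ne

lemma sum_lt {s : Finset ℕ} {f g : ℕ → ℝ≥0∞} {i : ℕ} (hi : i ∈ s) (hle : ∀ j ∈ s, f j ≤ g j)
    (hlt : f i < g i) (hfin : ∀ j ∈ s, f j ≠ ⊤) : ∑ j ∈ s, f j < ∑ j ∈ s, g j := by
  rw [← Finset.add_sum_erase s f hi, ← Finset.add_sum_erase s g hi]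
  refine ENNReal.add_lt_add_of_lt_of_le ?_ hlt
    (Finset.sum_le_sum fun j hj => hle j (Finset.mem_of_mem_erase hj))
  exact (ENNReal.sum_lt_top.mpr fun j hj =>
    lt_top_iff_ne_top.mpr (hfin j (Finset.mem_of_mem_erase hj))).ne

/-- FG-GF -/
theorem gf : TaskGF := by
  intro p _ hmean z hz hfix
  have hp1 : ∑' k, p {k} = 1 := by
    have := lintegral_countable' (μ := p) (fun _ => (1 : ℝ≥0∞))
    simpa using this.symm
  obtain ⟨k0, hk0, hpk⟩ : ∃ k0 : ℕ, 2 ≤ k0 ∧ p {k0} ≠ 0 := by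
    by_contra h
    push Not at h
    rw [lintegral_countable'] at hmean
    have h1 : ∑' k : ℕ, (k : ℝ≥0∞) * p {k} ≤ ∑' k, p {k} := by
      refine ENNReal.tsum_le_tsum fun k => ?_
      rcases Nat.lt_or_ge k 2 with hk | hk
      · have : (k : ℝ≥0∞) ≤ 1 := by exact_mod_cast Nat.lt_succ_iff.mp hk
        calc (k : ℝ≥0∞) * p {k} ≤ 1 * p {k} := by gcongr
          _ = p {k} := one_mul _
      · rw [h k hk]; simp
    rw [hp1] at h1
    exact absurd hmean (not_lt.mpr h1)
  have hpfin : p {k0} ≠ ⊤ := (measure_ne_top p _)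
  have hT := tsum_geom p hz hfix
  have hz1 : z ≤ 1 := hz.le
  have hpt : ∀ k : ℕ, (k : ℝ≥0∞) * z ^ (k - 1) ≤ ∑ i ∈ Finset.range k, z ^ i := by
    intro k
    calc (k : ℝ≥0∞) * z ^ (k - 1) = ∑ _i ∈ Finset.range k, z ^ (k - 1) := by simp
      _ ≤ ∑ i ∈ Finset.range k, z ^ i := by
        refine Finset.sum_le_sum fun i hi => ?_
        exact pow_le_pow_of_le_one zero_le hz1 (by have := Finset.mem_range.mp hi; omega)
  constructor
  · rw [← hT]
    refine ENNReal.tsum_lt_tsum (i := k0) ?_ (fun k => ?_) ?_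
    · refine ne_top_of_le_ne_top (b := ∑' k, p {k} * ∑ i ∈ Finset.range k, z ^ i) ?_ ?_
      · rw [hT]; exact ENNReal.one_ne_top
      · exact ENNReal.tsum_le_tsum fun k => by gcongr; exact hpt k
    · gcongr
      exact hpt k
    · refine (ENNReal.mul_lt_mul_iff_right hpk hpfin).mpr ?_
      calc (k0 : ℝ≥0∞) * z ^ (k0 - 1) = ∑ _i ∈ Finset.range k0, z ^ (k0 - 1) := by simp
        _ < ∑ i ∈ Finset.range k0, z ^ i := by
          refine sum_lt (i := 0) (Finset.mem_range.mpr (by omega)) (fun i hi =>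
            pow_le_pow_of_le_one zero_le hz1 (by have := Finset.mem_range.mp hi; omega)) ?_
            (fun _ _ => ENNReal.pow_ne_top (hz.trans ENNReal.one_lt_top).ne)
          rw [pow_zero]
          exact pow_lt_one₀ zero_le hz (by omega)
  · intro q hq hqfix
    by_contra hne
    have hlt : q < z := lt_of_le_of_ne hq hne
    have hTq := tsum_geom p (hlt.trans hz) hqfix
    have : ∑' k, p {k} * ∑ i ∈ Finset.range k, q ^ i < ∑' k, p {k} * ∑ i ∈ Finset.range k, z ^ i := by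
      refine ENNReal.tsum_lt_tsum (i := k0) ?_ (fun k => ?_) ?_
      · rw [hTq]; exact ENNReal.one_ne_top
      · gcongr
      · refine (ENNReal.mul_lt_mul_iff_right hpk hpfin).mpr ?_
        refine sum_lt (i := 1) (Finset.mem_range.mpr (by omega)) (fun i _ => ?_) ?_
            (fun _ _ => ENNReal.pow_ne_top ((hlt.trans hz).trans ENNReal.one_lt_top).ne)
        · exact pow_le_pow_left' hq i
        · simpa using hlt
    rw [hTq, hT] at this
    exact lt_irrefl _ this

end Pool.Agent.W782.FG
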