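import Pool.Agent.W782.FG.Chain

/-!
# Project FG (MP_ac6ae5_pr, helper852): task FG-IND
-/

namespace Pool.Agent.W782.FG

open FrogGW MeasureTheory ProbabilityTheory
open scoped ENNReal NNReal Classical

lemma lintegral_indep' {ι R : Type} [MeasurableSpace R] (ν : Measure R) [IsProbabilityMeasure ν]
    (x : ι) (a : R → ℝ≥0∞) (b : (ι → R) → ℝ≥0∞) (ha : Measurable a)
    (hb : Measurable b) (hab : ∀ ω ω', (∀ i, i ≠ x → ω i = ω' i) → b ω = b ω') :
    ∫⁻ ω, a (ω x) * b ω ∂(Measure.infinitePi fun _ : ι => ν) =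
      (∫⁻ r, a r ∂ν) * ∫⁻ ω, b ω ∂(Measure.infinitePi fun _ : ι => ν) :=
  lintegral_indep ν x a b ha hb fun ω r => hab _ _ fun i hi => Function.update_of_ne hi _ _

section

variable {X : Type} [MeasurableSpace X] {μ : Measure X} [IsProbabilityMeasure μ] {w a : X → ℝ}
  {γ : ℝ}

/-- relabelling of coordinates -/
lemma lintegral_relabel (e : ℕ → ℕ) (he : Function.Injective e) (b : (ℕ → X) → ℝ≥0∞)
    (hb : Measurable b) :
    ∫⁻ Y, b (fun i => Y (e i)) ∂(Measure.infinitePi fun _ : ℕ => μ) =
      ∫⁻ Y, b Y ∂(Measure.infinitePi fun _ : ℕ => μ) := by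
  have h1 := Measure.map_infinitePi_infinitePi_of_inj (P := fun _ : ℕ => μ) he
  have hm : Measurable fun (ω : ℕ → X) (i : ℕ) => ω (e i) := by fun_prop
  conv_rhs => rw [← h1]
  rw [lintegral_map hb hm]

lemma sum_swap (k i : ℕ) (hi : i < k) (f : ℕ → ℝ) :
    ∑ j ∈ Finset.range (k - 1), f (Equiv.swap i (k - 1) j) =
      ∑ j ∈ (Finset.range k).erase i, f j := by
  refine Finset.sum_bij (fun j _ => Equiv.swap i (k - 1) j) ?_ ?_ ?_ ?_
  · intro j hj
    rw [Finset.mem_range] at hj
    rw [Finset.mem_erase, Finset.mem_range]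
    by_cases hji : j = i
    · subst hji
      rw [Equiv.swap_apply_left]
      omega
    · rw [Equiv.swap_apply_of_ne_of_ne hji (by omega)]
      exact ⟨hji, by omega⟩
  · intro a _ b _ h
    exact (Equiv.swap i (k - 1)).injective h
  · intro j hj
    rw [Finset.mem_erase, Finset.mem_range] at hj
    refine ⟨Equiv.swap i (k - 1) j, ?_, Equiv.swap_apply_self _ _ _⟩
    rw [Finset.mem_range]
    by_cases hjk : j = k - 1
    · rw [hjk, Equiv.swap_apply_right]
      omega
    · rw [Equiv.swap_apply_of_ne_of_ne hj.1 hjk]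
      omega
  · intro j _
    rfl

/-- FG-IND -/
theorem ind : TaskInd := by
  intro X _ μ _ w a γ hw ha hw01 ha0 hγ
  have hwm : ∀ j : ℕ, Measurable fun Y : ℕ → X => w (Y j) := fun j =>
    hw.comp (measurable_pi_apply j)
  have ham : ∀ j : ℕ, Measurable fun Y : ℕ → X => a (Y j) := fun j =>
    ha.comp (measurable_pi_apply j)
  have hzero : ∀ s : Finset ℕ, (Measure.infinitePi fun _ : ℕ => μ) {Y | ∀ i ∈ s, w (Y i) = 0} =
      μ {x | w x = 0} ^ s.card := by
    intro s
    have h1 : {Y : ℕ → X | ∀ i ∈ s, w (Y i) = 0} = Set.pi s fun _ => {x | w x = 0} := rfl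
    have hms : MeasurableSet {x | w x = 0} := hw (measurableSet_singleton 0)
    rw [h1, Measure.infinitePi_pi _ (fun i _ => hms)]
    simp
  refine ⟨?_, ?_, ?_, ?_⟩
  · intro P k i hi
    have hS : Measurable fun Y : ℕ → X => ∑ j ∈ (Finset.range k).erase i, w (Y j) :=
      Finset.measurable_sum _ fun j _ => hwm j
    have hS' : Measurable fun Y : ℕ → X => ∑ j ∈ Finset.range (k - 1), w (Y j) :=
      Finset.measurable_sum _ fun j _ => hwm j
    have hb : Measurable fun Y : ℕ → X => ENNReal.ofReal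
        (((1 + γ * ∑ j ∈ (Finset.range k).erase i, w (Y j))⁻¹) ^ P) := by fun_prop
    have hb' : Measurable fun Y : ℕ → X => ENNReal.ofReal
        (((1 + γ * ∑ j ∈ Finset.range (k - 1), w (Y j))⁻¹) ^ P) := by fun_prop
    have h1 : ∀ Y : ℕ → X, ENNReal.ofReal (a (Y i) ^ P *
          ((1 + γ * ∑ j ∈ (Finset.range k).erase i, w (Y j))⁻¹) ^ P) =
        (fun x => ENNReal.ofReal (a x ^ P)) (Y i) * ENNReal.ofReal
          (((1 + γ * ∑ j ∈ (Finset.range k).erase i, w (Y j))⁻¹) ^ P) := by
      intro Y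
      exact ENNReal.ofReal_mul (pow_nonneg (ha0 _) _)
    simp only [h1]
    rw [lintegral_indep' μ i (fun x => ENNReal.ofReal (a x ^ P)) (fun Y => ENNReal.ofReal
          (((1 + γ * ∑ j ∈ (Finset.range k).erase i, w (Y j))⁻¹) ^ P)) (by fun_prop) hb ?_]
    · congr 1
      unfold mk
      rw [← lintegral_relabel (Equiv.swap i (k - 1)) (Equiv.injective _) _ hb']
      refine lintegral_congr fun Y => ?_
      rw [sum_swap k i hi fun j => w (Y j)]
    · intro Y Y' hY
      have : ∑ j ∈ (Finset.range k).erase i, w (Y j) = ∑ j ∈ (Finset.range k).erase i, w (Y' j) :=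
        Finset.sum_congr rfl fun j hj => by rw [hY j (Finset.ne_of_mem_erase hj)]
      rw [this]
  · intro r i j hij
    have h1 : ∀ Y : ℕ → X, ENNReal.ofReal (a (Y i) ^ r * a (Y j) ^ r) =
        (fun x => ENNReal.ofReal (a x ^ r)) (Y i) * ENNReal.ofReal (a (Y j) ^ r) := by
      intro Y
      exact ENNReal.ofReal_mul (pow_nonneg (ha0 _) _)
    simp only [h1]
    have hb : Measurable fun Y : ℕ → X => ENNReal.ofReal (a (Y j) ^ r) :=
      ((ham j).pow_const r).ennreal_ofReal
    rw [lintegral_indep' μ i (fun x => ENNReal.ofReal (a x ^ r)) (fun Y => ENNReal.ofReal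
          (a (Y j) ^ r)) (by fun_prop) hb ?_]
    · have h2 : ∫⁻ Y : ℕ → X, ENNReal.ofReal (a (Y j) ^ r) ∂(Measure.infinitePi fun _ : ℕ => μ) =
          ∫⁻ x, ENNReal.ofReal (a x ^ r) ∂μ :=
        (measurePreserving_eval_infinitePi (fun _ : ℕ => μ) j).lintegral_comp
          (f := fun x => ENNReal.ofReal (a x ^ r)) (by fun_prop)
      rw [h2, sq]
    · intro Y Y' hY
      rw [hY j hij.symm]
  · intro k
    have hms : MeasurableSet {x | w x = 0} := hw (measurableSet_singleton 0)
    have h1 : ∀ Y : ℕ → X, ENNReal.ofReal (if ∀ i < k, w (Y i) = 0 then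
        ∑ i ∈ Finset.range k, a (Y i) else 0) =
        ∑ i ∈ Finset.range k, ({x | w x = 0}.indicator (fun x => ENNReal.ofReal (a x)) (Y i)) *
          ({Y : ℕ → X | ∀ j ∈ (Finset.range k).erase i, w (Y j) = 0}.indicator 1 Y : ℝ≥0∞) := by
      intro Y
      by_cases h : ∀ i < k, w (Y i) = 0
      · rw [if_pos h, ENNReal.ofReal_sum_of_nonneg fun i _ => ha0 _]
        refine Finset.sum_congr rfl fun i hi => ?_
        rw [Set.indicator_of_mem (show Y i ∈ {x | w x = 0} from h i (Finset.mem_range.mp hi)),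
          Set.indicator_of_mem]
        · simp
        · intro j hj
          exact h j (Finset.mem_range.mp (Finset.mem_of_mem_erase hj))
      · rw [if_neg h, ENNReal.ofReal_zero]
        symm
        apply Finset.sum_eq_zero
        intro i hi
        by_cases h2 : w (Y i) = 0
        · have h3 : Y ∉ {Y : ℕ → X | ∀ j ∈ (Finset.range k).erase i, w (Y j) = 0} := by
            intro h4
            apply h
            intro j hj
            by_cases hji : j = i
            · rw [hji]; exact h2
            · exact h4 j (Finset.mem_erase.mpr ⟨hji, Finset.mem_range.mpr hj⟩)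
          rw [Set.indicator_of_notMem h3, mul_zero]
        · rw [Set.indicator_of_notMem (show Y i ∉ {x | w x = 0} from h2), zero_mul]
    simp only [h1]
    have hme : ∀ i : ℕ, MeasurableSet
        {Y : ℕ → X | ∀ j ∈ (Finset.range k).erase i, w (Y j) = 0} := by
      intro i
      have : {Y : ℕ → X | ∀ j ∈ (Finset.range k).erase i, w (Y j) = 0} =
        Set.pi ((Finset.range k).erase i) fun _ => {x | w x = 0} := rfl
      rw [this]
      exact .pi (Finset.countable_toSet _) fun _ _ => hms
    have hma : Measurable ({x | w x = 0}.indicator (fun x => ENNReal.ofReal (a x))) :=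
      (ha.ennreal_ofReal).indicator hms
    have hmm : ∀ i ∈ Finset.range k, Measurable fun Y : ℕ → X =>
        ({x | w x = 0}.indicator (fun x => ENNReal.ofReal (a x)) (Y i)) *
          ({Y : ℕ → X | ∀ j ∈ (Finset.range k).erase i, w (Y j) = 0}.indicator 1 Y : ℝ≥0∞) :=
      fun i _ => (hma.comp (measurable_pi_apply i)).mul (measurable_one.indicator (hme i))
    rw [lintegral_finsetSum _ hmm]
    have h2 : ∀ i ∈ Finset.range k, ∫⁻ Y : ℕ → X,
        ({x | w x = 0}.indicator (fun x => ENNReal.ofReal (a x)) (Y i)) *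
          ({Y : ℕ → X | ∀ j ∈ (Finset.range k).erase i, w (Y j) = 0}.indicator 1 Y : ℝ≥0∞)
          ∂(Measure.infinitePi fun _ : ℕ => μ) =
        μ {x | w x = 0} ^ (k - 1) * ∫⁻ x in {x | w x = 0}, ENNReal.ofReal (a x) ∂μ := by
      intro i hi
      rw [lintegral_indep' μ i _ _ hma (measurable_one.indicator (hme i)) ?_,
        lintegral_indicator_one (hme i), hzero, lintegral_indicator hms, mul_comm]
      · rw [Finset.card_erase_of_mem hi, Finset.card_range]
      · intro Y Y' hY
        have h3 : Y ∈ {Y : ℕ → X | ∀ j ∈ (Finset.range k).erase i, w (Y j) = 0} ↔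
            Y' ∈ {Y : ℕ → X | ∀ j ∈ (Finset.range k).erase i, w (Y j) = 0} := by
          refine forall₂_congr fun j hj => ?_
          rw [hY j (Finset.ne_of_mem_erase hj)]
        simp only [Set.indicator_apply, h3, Pi.one_apply]
    rw [Finset.sum_congr rfl h2, Finset.sum_const, Finset.card_range, nsmul_eq_mul, mul_assoc]
  · intro k
    have := hzero (Finset.range k)
    simpa using this

end

end Pool.Agent.W782.FG
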