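import Pool.Agent.W852.FG.Stms

/-!
# Project FG (MP_ac6ae5_pr, helper852): tasks FG-MK, FG-KAPPA
-/

namespace Pool.Agent.W782.FG

open FrogGW MeasureTheory ProbabilityTheory Filter Topology
open scoped ENNReal NNReal Classical

lemma exp_le {γ w : ℝ} (h0 : 0 ≤ w) (h1 : w ≤ 1) :
    Real.exp (-γ * w) ≤ 1 - (1 - Real.exp (-γ)) * w := by
  have h := convexOn_exp.2 (Set.mem_univ 0) (Set.mem_univ (-γ)) (sub_nonneg.mpr h1) h0 (by ring)
  simp only [smul_eq_mul, mul_zero, zero_add, Real.exp_zero, mul_one] at h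
  calc Real.exp (-γ * w) = Real.exp (w * -γ) := by congr 1; ring
    _ ≤ 1 - w + w * Real.exp (-γ) := h
    _ = _ := by ring

section

variable {X : Type} [MeasurableSpace X] {μ : Measure X} [IsProbabilityMeasure μ] {w : X → ℝ}
  {γ : ℝ}

lemma int_w (hw : Measurable w) (hw01 : ∀ x, 0 ≤ w x ∧ w x ≤ 1) : Integrable w μ := by
  refine (integrable_const (1 : ℝ)).mono' hw.aestronglyMeasurable (Eventually.of_forall fun x => ?_)
  rw [Real.norm_of_nonneg (hw01 x).1]
  exact (hw01 x).2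

/-- the Laplace transform is less than one -/
lemma phi_lt (hw : Measurable w) (hw01 : ∀ x, 0 ≤ w x ∧ w x ≤ 1) (hγ : 0 < γ)
    (hpos : 0 < ∫⁻ x, ENNReal.ofReal (w x) ∂μ) :
    ∫ x, Real.exp (-γ * w x) ∂μ < 1 := by
  have hwi := int_w (μ := μ) hw hw01
  have hm : 0 < ∫ x, w x ∂μ := by
    rw [integral_eq_lintegral_of_nonneg_ae (Eventually.of_forall fun x => (hw01 x).1)
      hw.aestronglyMeasurable]
    apply ENNReal.toReal_pos hpos.ne'
    refine ne_top_of_le_ne_top ENNReal.one_ne_top ?_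
    calc ∫⁻ x, ENNReal.ofReal (w x) ∂μ ≤ ∫⁻ _x, 1 ∂μ := lintegral_mono fun x => by
          rw [← ENNReal.ofReal_one]
          exact ENNReal.ofReal_le_ofReal (hw01 x).2
      _ = 1 := by simp
  have he : Real.exp (-γ) < 1 := by
    rw [Real.exp_lt_one_iff]; linarith
  have h1 : ∫ x, Real.exp (-γ * w x) ∂μ ≤ ∫ x, (1 - (1 - Real.exp (-γ)) * w x) ∂μ := by
    apply integral_mono
    · refine (integrable_const (1 : ℝ)).mono' (by fun_prop) (Eventually.of_forall fun x => ?_)
      rw [Real.norm_of_nonneg (Real.exp_pos _).le]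
      exact Real.exp_le_one_iff.mpr (by nlinarith [(hw01 x).1])
    · exact (integrable_const 1).sub (hwi.const_mul _)
    · intro x
      exact exp_le (hw01 x).1 (hw01 x).2
  rw [integral_sub (integrable_const 1) (hwi.const_mul _), integral_const_mul] at h1
  simp only [integral_const, probReal_univ, smul_eq_mul, mul_one] at h1
  have : 0 < (1 - Real.exp (-γ)) * ∫ x, w x ∂μ := mul_pos (by linarith) hm
  linarith

lemma phi_pos (hw : Measurable w) (hw01 : ∀ x, 0 ≤ w x ∧ w x ≤ 1) (hγ : 0 < γ) :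
    0 < ∫ x, Real.exp (-γ * w x) ∂μ := by
  have h1 : ∫ _x, Real.exp (-γ) ∂μ ≤ ∫ x, Real.exp (-γ * w x) ∂μ := by
    apply integral_mono (integrable_const _)
    · refine (integrable_const (1 : ℝ)).mono' (by fun_prop) (Eventually.of_forall fun x => ?_)
      rw [Real.norm_of_nonneg (Real.exp_pos _).le]
      exact Real.exp_le_one_iff.mpr (by nlinarith [(hw01 x).1])
    · intro x
      exact Real.exp_le_exp.mpr (by nlinarith [(hw01 x).2])
  simp only [integral_const, probReal_univ, smul_eq_mul, one_mul] at h1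
  exact lt_of_lt_of_le (Real.exp_pos _) h1

/-- exponential moment of the sum -/
lemma exp_sum (hw : Measurable w) (hw01 : ∀ x, 0 ≤ w x ∧ w x ≤ 1) (hγ : 0 < γ) (k : ℕ) :
    ∫⁻ Y, ENNReal.ofReal (Real.exp (-γ * ∑ i ∈ Finset.range k, w (Y i)))
      ∂(Measure.infinitePi fun _ : ℕ => μ) =
      ENNReal.ofReal ((∫ x, Real.exp (-γ * w x) ∂μ) ^ k) := by
  have h1 : ∀ Y : ℕ → X, ENNReal.ofReal (Real.exp (-γ * ∑ i ∈ Finset.range k, w (Y i))) =
      ∏ i ∈ Finset.range k, ENNReal.ofReal (Real.exp (-γ * w (Y i))) := by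
    intro Y
    rw [Finset.mul_sum, Real.exp_sum, ENNReal.ofReal_prod_of_nonneg fun i _ => (Real.exp_pos _).le]
  simp only [h1]
  have hmeas : Measurable fun x => ENNReal.ofReal (Real.exp (-γ * w x)) := by fun_prop
  have hind := iIndepFun_infinitePi (P := fun _ : ℕ => μ)
    (X := fun _ : ℕ => fun x => ENNReal.ofReal (Real.exp (-γ * w x))) (fun _ => hmeas)
  rw [lintegral_prod_eq_prod_lintegral_of_indepFun (Finset.range k) _ hind
    fun i => hmeas.comp (measurable_pi_apply i)]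
  have h2 : ∀ i ∈ Finset.range k, ∫⁻ Y : ℕ → X, ENNReal.ofReal (Real.exp (-γ * w (Y i)))
      ∂(Measure.infinitePi fun _ : ℕ => μ) = ENNReal.ofReal (∫ x, Real.exp (-γ * w x) ∂μ) := by
    intro i _
    rw [(measurePreserving_eval_infinitePi (fun _ : ℕ => μ) i).lintegral_comp hmeas]
    rw [ofReal_integral_eq_lintegral_ofReal]
    · refine (integrable_const (1 : ℝ)).mono' (by fun_prop) (Eventually.of_forall fun x => ?_)
      rw [Real.norm_of_nonneg (Real.exp_pos _).le]
      exact Real.exp_le_one_iff.mpr (by nlinarith [(hw01 x).1])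
    · exact Eventually.of_forall fun x => (Real.exp_pos _).le
  rw [Finset.prod_congr rfl h2, Finset.prod_const, Finset.card_range,
    ENNReal.ofReal_pow (phi_pos hw hw01 hγ).le]

end

/-- FG-MK -/
theorem mkMain : TaskMk := by
  intro X _ μ _ w γ hw hw01 hγ hpos P
  set φ := ∫ x, Real.exp (-γ * w x) ∂μ with hφ
  have hφ1 : φ < 1 := phi_lt hw hw01 hγ hpos
  have hφ0 : 0 < φ := phi_pos hw hw01 hγ
  set ε : ℝ := -Real.log φ / 2 with hε
  have hε0 : 0 < ε := by
    have := Real.log_neg hφ0 hφ1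
    rw [hε]; linarith
  set ρ : ℝ := Real.exp (-ε) with hρ
  have hρ0 : 0 < ρ := Real.exp_pos _
  have hρ1 : ρ < 1 := by rw [hρ, Real.exp_lt_one_iff]; linarith
  have hρk : ∀ k : ℕ, Real.exp (ε * k) * φ ^ k = ρ ^ k := by
    intro k
    have h1 : φ = Real.exp (-(2 * ε)) := by
      rw [hε]
      have : -(2 * (-Real.log φ / 2)) = Real.log φ := by ring
      rw [this, Real.exp_log hφ0]
    rw [h1, hρ, ← Real.exp_nat_mul, ← Real.exp_nat_mul, ← Real.exp_add]
    congr 1
    ring
  -- the exponential part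
  obtain ⟨C2, hC2⟩ : ∃ C2 : ℝ, ∀ k : ℕ, ρ ^ k * ((k : ℝ) + 1) ^ P ≤ C2 := by
    have h1 := tendsto_pow_const_mul_const_pow_of_lt_one P hρ0.le hρ1
    obtain ⟨C, hC⟩ := h1.bddAbove_range
    refine ⟨C / ρ, fun k => ?_⟩
    have h2 : ((k + 1 : ℕ) : ℝ) ^ P * ρ ^ (k + 1) ≤ C := hC ⟨k + 1, rfl⟩
    rw [le_div_iff₀ hρ0]
    calc ρ ^ k * ((k : ℝ) + 1) ^ P * ρ = ((k + 1 : ℕ) : ℝ) ^ P * ρ ^ (k + 1) := by
          push_cast; ring
      _ ≤ C := h2
  have hC20 : 0 ≤ C2 := le_trans (by positivity) (hC2 0)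
  -- the polynomial part
  set M : ℝ := max 1 (1 / ε) with hM
  have hM0 : 0 < M := lt_of_lt_of_le one_pos (le_max_left _ _)
  have hpoly : ∀ k : ℕ, ((1 + ε * k)⁻¹) ^ P * ((k : ℝ) + 1) ^ P ≤ M ^ P := by
    intro k
    rw [← mul_pow]
    apply pow_le_pow_left₀ (by positivity)
    rw [inv_mul_le_iff₀ (by positivity)]
    have h1 : (1 : ℝ) ≤ M := le_max_left _ _
    have h2 : 1 / ε ≤ M := le_max_right _ _
    rw [div_le_iff₀ hε0] at h2
    have h3 : (0 : ℝ) ≤ k := Nat.cast_nonneg k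
    nlinarith
  refine ⟨M ^ P + C2 + 1, by positivity, fun k => ?_⟩
  have hk0 : (0 : ℝ) < ((k : ℝ) + 1) ^ P := by positivity
  unfold FrogGW.mk
  have hbound : ∀ Y : ℕ → X,
      ENNReal.ofReal (((1 + γ * ∑ i ∈ Finset.range k, w (Y i))⁻¹) ^ P) ≤
        ENNReal.ofReal (((1 + ε * k)⁻¹) ^ P) + ENNReal.ofReal (Real.exp (ε * k)) *
          ENNReal.ofReal (Real.exp (-γ * ∑ i ∈ Finset.range k, w (Y i))) := by
    intro Y
    have hS : 0 ≤ ∑ i ∈ Finset.range k, w (Y i) := Finset.sum_nonneg fun i _ => (hw01 _).1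
    set S := ∑ i ∈ Finset.range k, w (Y i) with hSdef
    rcases le_or_gt (ε * k) (γ * S) with h | h
    · refine le_trans ?_ le_self_add
      apply ENNReal.ofReal_le_ofReal
      apply pow_le_pow_left₀ (by positivity)
      apply inv_anti₀ (by positivity)
      linarith
    · refine le_trans ?_ le_add_self
      rw [← ENNReal.ofReal_mul (Real.exp_pos _).le, ← Real.exp_add]
      apply ENNReal.ofReal_le_ofReal
      have h1 : ((1 + γ * S)⁻¹) ^ P ≤ 1 := by
        apply pow_le_one₀ (by positivity)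
        apply inv_le_one_of_one_le₀
        have : 0 ≤ γ * S := by positivity
        linarith
      refine h1.trans (Real.one_le_exp ?_)
      linarith
  refine (lintegral_mono hbound).trans ?_
  have hmS : Measurable fun Y : ℕ → X => ∑ i ∈ Finset.range k, w (Y i) :=
    Finset.measurable_sum _ fun i _ => hw.comp (measurable_pi_apply i)
  rw [lintegral_add_left measurable_const, lintegral_const, measure_univ, mul_one,
    lintegral_const_mul _ (by fun_prop), exp_sum hw hw01 hγ, ← ENNReal.ofReal_mul (Real.exp_pos _).le,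
    hρk, ← ENNReal.ofReal_add (by positivity) (by positivity)]
  apply ENNReal.ofReal_le_ofReal
  rw [le_div_iff₀ hk0, add_mul]
  have h1 := hpoly k
  have h2 := hC2 k
  linarith

/-- FG-KAPPA -/
theorem kappa (hMk : TaskMk) (hGF : TaskGF) : TaskKappa := by
  intro X _ μ _ w γ hw hw01 hγ hpos p _ hmean hfix
  set z := μ {x | w x = 0} with hz
  have hms : MeasurableSet {x | w x = 0} := hw (measurableSet_singleton 0)
  have hz1 : z < 1 := by
    rw [hz]
    by_contra h
    have h1 : μ {x | w x = 0} = 1 := le_antisymm prob_le_one (not_lt.mp h)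
    have h2 : ∀ᵐ x ∂μ, w x = 0 := (prob_compl_eq_zero_iff hms).mpr h1
    have h3 : ∫⁻ x, ENNReal.ofReal (w x) ∂μ = 0 := by
      rw [lintegral_congr_ae (g := fun _ => 0)]
      · simp
      · filter_upwards [h2] with x hx
        rw [hx, ENNReal.ofReal_zero]
    exact hpos.ne' h3
  obtain ⟨hf', _⟩ := hGF p hmean z hz1 hfix
  obtain ⟨C, hC0, hC⟩ := hMk X μ w γ hw hw01 hγ hpos 1
  have hmS : ∀ k : ℕ, Measurable fun Y : ℕ → X => ∑ i ∈ Finset.range k, w (Y i) := fun k =>
    Finset.measurable_sum _ fun i _ => hw.comp (measurable_pi_apply i)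
  have hS0 : ∀ (k : ℕ) (Y : ℕ → X), 0 ≤ ∑ i ∈ Finset.range k, w (Y i) :=
    fun k Y => Finset.sum_nonneg fun i _ => (hw01 _).1
  have hbase : ∀ (k : ℕ) (Y : ℕ → X), 0 ≤ (1 + γ * ∑ i ∈ Finset.range k, w (Y i))⁻¹ ∧
      (1 + γ * ∑ i ∈ Finset.range k, w (Y i))⁻¹ ≤ 1 := by
    intro k Y
    have := hS0 k Y
    have h1 : 0 ≤ γ * ∑ i ∈ Finset.range k, w (Y i) := mul_nonneg hγ.le this
    exact ⟨by positivity, inv_le_one_of_one_le₀ (by linarith)⟩
  -- bound
  have hbound : ∀ (r k : ℕ), 1 ≤ r → (k : ℝ≥0∞) * FrogGW.mk μ w γ (2 * r) (k - 1) ≤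
      ENNReal.ofReal C := by
    intro r k hr
    rcases Nat.eq_zero_or_pos k with hk | hk
    · rw [hk]; simp
    have h1 : FrogGW.mk μ w γ (2 * r) (k - 1) ≤ FrogGW.mk μ w γ 1 (k - 1) := by
      unfold FrogGW.mk
      apply lintegral_mono
      intro Y
      apply ENNReal.ofReal_le_ofReal
      exact pow_le_pow_of_le_one (hbase _ Y).1 (hbase _ Y).2 (by omega)
    have h2 := hC (k - 1)
    have hkr : ((k - 1 : ℕ) : ℝ) + 1 = k := by
      rw [Nat.cast_sub hk]; simp
    rw [pow_one, hkr] at h2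
    calc (k : ℝ≥0∞) * FrogGW.mk μ w γ (2 * r) (k - 1) ≤ k * ENNReal.ofReal (C / k) := by
          gcongr
          exact h1.trans h2
      _ = ENNReal.ofReal C := by
        have hkpos : (0 : ℝ) < k := by exact_mod_cast hk
        rw [← ENNReal.ofReal_natCast, ← ENNReal.ofReal_mul hkpos.le]
        congr 1
        field_simp
  -- pointwise limit
  have hlim : ∀ k : ℕ, Tendsto (fun r : ℕ => FrogGW.mk μ w γ (2 * (r + 1)) k) atTop
      (𝓝 (z ^ k)) := by
    intro k
    have hzk : z ^ k = ∫⁻ Y : ℕ → X, (Set.indicator {Y : ℕ → X | ∀ i ∈ Finset.range k, w (Y i) = 0}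
        1 Y : ℝ≥0∞) ∂(Measure.infinitePi fun _ : ℕ => μ) := by
      have h1 : {Y : ℕ → X | ∀ i ∈ Finset.range k, w (Y i) = 0} =
        Set.pi (Finset.range k) fun _ => {x | w x = 0} := rfl
      rw [lintegral_indicator_one, h1, Measure.infinitePi_pi _ (fun i _ => hms)]
      · simp [hz]
      · rw [h1]
        exact .pi (Finset.countable_toSet _) fun _ _ => hms
    rw [hzk]
    unfold FrogGW.mk
    apply tendsto_lintegral_of_dominated_convergence (fun _ => 1)
    · intro r
      have := hmS k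
      fun_prop
    · intro r
      refine Eventually.of_forall fun Y => ?_
      rw [← ENNReal.ofReal_one]
      exact ENNReal.ofReal_le_ofReal (pow_le_one₀ (hbase k Y).1 (hbase k Y).2)
    · simp
    · refine Eventually.of_forall fun Y => ?_
      by_cases h : ∀ i ∈ Finset.range k, w (Y i) = 0
      · rw [Set.indicator_of_mem (show Y ∈ {Y : ℕ → X | ∀ i ∈ Finset.range k, w (Y i) = 0} from h)]
        rw [Finset.sum_eq_zero h]
        simp
      · rw [Set.indicator_of_notMem
          (show Y ∉ {Y : ℕ → X | ∀ i ∈ Finset.range k, w (Y i) = 0} from h)]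
        have hSpos : 0 < ∑ i ∈ Finset.range k, w (Y i) := by
          refine lt_of_le_of_ne (hS0 k Y) fun h0 => h ?_
          exact (Finset.sum_eq_zero_iff_of_nonneg fun i _ => (hw01 _).1).mp h0.symm
        have hlt : (1 + γ * ∑ i ∈ Finset.range k, w (Y i))⁻¹ < 1 := by
          apply inv_lt_one_of_one_lt₀
          have := mul_pos hγ hSpos
          linarith
        have h2 := tendsto_pow_atTop_nhds_zero_of_lt_one (hbase k Y).1 hlt
        have h3 : Tendsto (fun r : ℕ => 2 * (r + 1)) atTop atTop :=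
          tendsto_atTop_mono (fun r => by show r ≤ 2 * (r + 1); omega) tendsto_id
        have h4 := (ENNReal.continuous_ofReal.tendsto 0).comp (h2.comp h3)
        rw [ENNReal.ofReal_zero] at h4
        exact h4
  -- dominated convergence for `p`
  have hDC : Tendsto (fun r : ℕ => ∫⁻ k : ℕ, (k : ℝ≥0∞) * FrogGW.mk μ w γ (2 * (r + 1)) (k - 1) ∂p)
      atTop (𝓝 (∫⁻ k : ℕ, (k : ℝ≥0∞) * z ^ (k - 1) ∂p)) := by
    apply tendsto_lintegral_of_dominated_convergence (fun _ => ENNReal.ofReal C)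
    · intro r
      exact measurable_from_top
    · intro r
      exact Eventually.of_forall fun k => hbound (r + 1) k (by omega)
    · simp
    · refine Eventually.of_forall fun k => ?_
      exact ENNReal.Tendsto.const_mul (hlim (k - 1)) (Or.inr (ENNReal.natCast_ne_top k))
  have hf'' : ∫⁻ k : ℕ, (k : ℝ≥0∞) * z ^ (k - 1) ∂p < 1 := by
    rw [lintegral_countable']
    refine lt_of_eq_of_lt (tsum_congr fun k => mul_comm _ _) hf'
  obtain ⟨r, hr⟩ := (hDC.eventually (gt_mem_nhds hf'')).exists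
  refine ⟨r + 1, by omega, ?_⟩
  rw [lintegral_countable'] at hr
  refine lt_of_eq_of_lt (tsum_congr fun k => mul_comm _ _) hr

end Pool.Agent.W782.FG
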