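import Pool.Agent.W852.FG.Stms

/-!
# Project FG (MP_ac6ae5_pr, helper852): tasks FG-SPLIT, FG-CAMP
-/

namespace Pool.Agent.W782.FG

open FrogGW MeasureTheory ProbabilityTheory
open scoped ENNReal NNReal Classical

section option

variable {κ ι α : Type} [MeasurableSpace α] (μ : Measure α) [IsProbabilityMeasure μ]

/-- join a value and a family -/
def join (p : α × (κ → α)) : Option κ → α := fun o => o.elim p.1 p.2

lemma measurable_join : Measurable (join (κ := κ) (α := α)) := by
  rw [measurable_pi_iff]
  rintro (_ | k)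
  · exact measurable_fst
  · exact (measurable_pi_apply k).comp measurable_snd

lemma map_join : (μ.prod (Measure.infinitePi fun _ : κ => μ)).map join =
    Measure.infinitePi fun _ : Option κ => μ := by
  apply Measure.eq_infinitePi
  intro s t ht
  rw [Measure.map_apply measurable_join (.pi s.countable_toSet fun _ _ => ht _)]
  have h1 : (join ⁻¹' (Set.pi s t) : Set (α × (κ → α))) =
      (if none ∈ s then t none else Set.univ) ×ˢ
        (Set.pi (Finset.eraseNone s) fun k => t (some k)) := by
    ext p
    constructor
    · intro h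
      constructor
      · split_ifs with h2
        · exact h none h2
        · trivial
      · intro k hk
        exact h (some k) (by simpa using hk)
    · rintro ⟨h2, h3⟩ o ho
      rcases o with _ | k
      · have ho' : none ∈ s := ho
        rw [if_pos ho'] at h2
        exact h2
      · exact h3 k (by simpa using ho)
  rw [h1, Measure.prod_prod, Measure.infinitePi_pi _ (fun k _ => ht _)]
  by_cases h2 : none ∈ s
  · rw [if_pos h2]
    have h3 : s = insert none ((Finset.eraseNone s).map Function.Embedding.some) := by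
      ext o
      rcases o with _ | k
      · simp [h2]
      · simp
    conv_rhs => rw [h3]
    rw [Finset.prod_insert (by simp), Finset.prod_map]
    rfl
  · rw [if_neg h2, measure_univ, one_mul]
    have h3 : s = (Finset.eraseNone s).map Function.Embedding.some := by
      ext o
      rcases o with _ | k
      · simp [h2]
      · simp
    conv_rhs => rw [h3]
    rw [Finset.prod_map]
    rfl

/-- split off one coordinate -/
lemma mp_split (f : Option κ → ι) (hf : Function.Injective f) :
    MeasurePreserving (fun ω : ι → α => (ω (f none), fun k : κ => ω (f (some k))))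
      (Measure.infinitePi fun _ : ι => μ) (μ.prod (Measure.infinitePi fun _ : κ => μ)) := by
  have hm : Measurable (fun ω : ι → α => (ω (f none), fun k : κ => ω (f (some k)))) := by
    fun_prop
  refine ⟨hm, ?_⟩
  have h1 := Measure.map_infinitePi_infinitePi_of_inj (P := fun _ : ι => μ) hf
  have hg : Measurable (fun ω : Option κ → α => (ω none, fun k : κ => ω (some k))) := by
    fun_prop
  have h2 : (fun ω : ι → α => (ω (f none), fun k : κ => ω (f (some k)))) =
      (fun ω : Option κ → α => (ω none, fun k : κ => ω (some k))) ∘ (fun ω i => ω (f i)) := rfl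
  rw [h2, ← Measure.map_map hg (by fun_prop), h1, ← map_join μ,
    Measure.map_map hg measurable_join]
  exact Measure.map_id

end option

/-- FG-SPLIT, first part -/
theorem seq : TaskSeq := by
  intro α _ μ _
  refine mp_split μ (fun o : Option ℕ => o.elim 0 fun k => k + 1) ?_
  rintro (_ | a) (_ | b) h
  · rfl
  · simp at h
  · simp at h
  · simpa using h

/-- FG-SPLIT, second part -/
theorem tree : TaskTree := by
  intro p _
  have h1 := mp_split p (κ := ℕ × List ℕ)
    (fun o => o.elim ([] : List ℕ) fun q => q.2 ++ [q.1]) (by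
      rintro (_ | a) (_ | b) h
      · rfl
      · simp at h
      · simp at h
      · simp only [Option.elim_some] at h
        obtain ⟨h1, h2⟩ := List.append_inj' h rfl
        have h3 : a.1 = b.1 := by simpa using h2
        exact congrArg some (Prod.ext h3 h1))
  have h2 : MeasurePreserving (fun (Y : ℕ × List ℕ → ℕ) (i : ℕ) (v : List ℕ) => Y (i, v))
      (Measure.infinitePi fun _ : ℕ × List ℕ => p) (Measure.infinitePi fun _ : ℕ => GW p) := by
    refine ⟨by fun_prop, ?_⟩
    exact Measure.infinitePi_map_curry (fun (_ : ℕ) (_ : List ℕ) => p)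
  have h3 := (MeasurePreserving.id p).prod h2
  exact h3.comp h1

lemma lintegral_poisson (lam : ℝ≥0) : ∫⁻ n : ℕ, (n : ℝ≥0∞) ∂(poissonMeasure lam) = lam := by
  rw [poissonMeasure, lintegral_sum_measure]
  simp only [lintegral_smul_measure, lintegral_dirac, smul_eq_mul]
  rw [tsum_eq_zero_add' ENNReal.summable]
  simp only [Nat.cast_zero, mul_zero, zero_add]
  have h1 : ∀ n : ℕ, ENNReal.ofReal (Real.exp (-lam) * lam ^ (n + 1) / ((n + 1).factorial)) *
      ((n + 1 : ℕ) : ℝ≥0∞) =
      lam * ENNReal.ofReal (Real.exp (-lam) * lam ^ n / (n.factorial)) := by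
    intro n
    have h2 : ((n + 1 : ℕ) : ℝ≥0∞) = ENNReal.ofReal ((n + 1 : ℕ) : ℝ) := by
      rw [ENNReal.ofReal_natCast]
    have h3 : (lam : ℝ≥0∞) = ENNReal.ofReal (lam : ℝ) := by
      rw [ENNReal.ofReal_coe_nnreal]
    rw [h2, h3, ← ENNReal.ofReal_mul (by positivity), ← ENNReal.ofReal_mul (by positivity)]
    congr 1
    rw [Nat.factorial_succ]
    have h4 : ((n : ℝ) + 1) ≠ 0 := by positivity
    have h5 : ((n.factorial : ℕ) : ℝ) ≠ 0 := by positivity
    push_cast
    field_simp
    ring
  rw [tsum_congr h1, ENNReal.tsum_mul_left]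
  have h6 : ∑' n : ℕ, ENNReal.ofReal (Real.exp (-lam) * lam ^ n / (n.factorial)) = 1 := by
    have := (hasSum_one_poissonMeasure lam)
    rw [← ENNReal.ofReal_tsum_of_nonneg (fun n => by positivity) this.summable, this.tsum_eq]
    simp
  rw [h6, mul_one]

/-- FG-CAMP -/
theorem camp : TaskCamp := by
  intro lam F hF
  unfold vertexLaw
  set ν : Measure (ℕ → ℝ) := Measure.infinitePi fun _ : ℕ => unif with hν
  have hm : Measurable fun r : Rd => ∑ j ∈ Finset.range r.1, F (r.2 j) := by
    apply measurable_from_prod_countable_right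
    intro n
    have h0 : ∀ j ∈ Finset.range n, Measurable fun y : ℕ → ℕ → ℝ => F (y j) :=
      fun j _ => hF.comp (measurable_pi_apply j)
    exact Finset.measurable_sum _ h0
  rw [lintegral_prod _ hm.aemeasurable]
  have h1 : ∀ n : ℕ, ∫⁻ v : ℕ → ℕ → ℝ, ∑ j ∈ Finset.range n, F (v j)
      ∂(Measure.infinitePi fun _ : ℕ => ν) = (n : ℝ≥0∞) * ∫⁻ u, F u ∂ν := by
    intro n
    have h0 : ∀ j ∈ Finset.range n, Measurable fun y : ℕ → ℕ → ℝ => F (y j) :=
      fun j _ => hF.comp (measurable_pi_apply j)
    rw [lintegral_finsetSum _ h0]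
    have h2 : ∀ j ∈ Finset.range n, ∫⁻ v : ℕ → ℕ → ℝ, F (v j)
        ∂(Measure.infinitePi fun _ : ℕ => ν) = ∫⁻ u, F u ∂ν := by
      intro j _
      exact (measurePreserving_eval_infinitePi (fun _ : ℕ => ν) j).lintegral_comp hF
    rw [Finset.sum_congr rfl h2]
    simp
  simp only [h1]
  rw [lintegral_mul_const _ (by exact measurable_from_top), lintegral_poisson]

end Pool.Agent.W782.FG
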